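import Mathlib
import Pool.Agent.Helper67.Inj.Cc

/-!
# A von Neumann algebra which is the range of a bounded projection of `B(H)` is injective
-/

set_option autoImplicit false

open scoped InnerProductSpace ComplexOrder

namespace Pool.Agent.Results.MP_68d413_an.BoundedProjectionInjective

universe u

variable {H : Type u} [NormedAddCommGroup H] [InnerProductSpace ℂ H] [CompleteSpace H]

/-- `P` is a bounded linear projection from `B(H)` onto `M`: it is a bounded (= continuous) linear
map, its values lie in `M`, and `P m = m` for `m ∈ M`. -/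
def IsProjectionOnto (P : (H →L[ℂ] H) →L[ℂ] (H →L[ℂ] H)) (M : VonNeumannAlgebra H) : Prop :=
  (∀ x, P x ∈ M) ∧ ∀ m ∈ M, P m = m

/-- The operator matrix `X` is a positive operator on `H^n`. -/
def PosMatrix {n : ℕ} (X : Fin n → Fin n → (H →L[ℂ] H)) : Prop :=
  ∀ ξ : Fin n → H, 0 ≤ ∑ i, ∑ j, ⟪ξ i, X i j (ξ j)⟫_ℂ

/-- `E` is completely positive: it maps positive operator matrices to positive operator matrices
(entrywise). -/
def CompletelyPositive (E : (H →L[ℂ] H) →L[ℂ] (H →L[ℂ] H)) : Prop :=
  ∀ (n : ℕ) (X : Fin n → Fin n → (H →L[ℂ] H)), PosMatrix X → PosMatrix fun i j => E (X i j)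

/-- The norm of the operator matrix `X`, as an operator on `H^n`, is at most `c`. -/
def NormLe {n : ℕ} (X : Fin n → Fin n → (H →L[ℂ] H)) (c : ℝ) : Prop :=
  ∀ η : Fin n → H, ∑ i, ‖∑ j, X i j (η j)‖ ^ 2 ≤ c ^ 2 * ∑ j, ‖η j‖ ^ 2

/-- `E` is completely contractive: it does not increase the norms of operator matrices of any
size. -/
def CompletelyContractive (E : (H →L[ℂ] H) →L[ℂ] (H →L[ℂ] H)) : Prop :=
  ∀ (n : ℕ) (X : Fin n → Fin n → (H →L[ℂ] H)) (c : ℝ), 0 ≤ c → NormLe X c →
    NormLe (fun i j => E (X i j)) c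

/-- `M` is injective: there is a completely positive and completely contractive projection from
`B(H)` onto `M`. -/
def IsInjective (M : VonNeumannAlgebra H) : Prop :=
  ∃ E : (H →L[ℂ] H) →L[ℂ] (H →L[ℂ] H),
    IsProjectionOnto E M ∧ CompletelyPositive E ∧ CompletelyContractive E

/-- A von Neumann algebra `M` on a complex Hilbert space `H` (of any dimension) is the range of a
bounded linear projection of `B(H)` if and only if it is injective. -/
theorem result (M : VonNeumannAlgebra H) :
    (∃ P : (H →L[ℂ] H) →L[ℂ] (H →L[ℂ] H), IsProjectionOnto P M) ↔ IsInjective M := by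
  constructor
  · intro h
    obtain ⟨E, h1, h2, h3⟩ := Pool.Agent.Helper67.Inj.main_cc M h
    exact ⟨E, h1, h2, h3⟩
  · rintro ⟨E, h1, -⟩
    exact ⟨E, h1⟩

end Pool.Agent.Results.MP_68d413_an.BoundedProjectionInjective
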